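import Pool.Agent.H.MP_0cad2f_co.helper47.Defs

/-!
In dimension one all vertices are adjacent.
-/

set_option autoImplicit false

namespace Pool.Agent.H.MP_0cad2f_co.helper47

open MeasureTheory ProbabilityTheory Matrix Finset
open scoped NNReal ENNReal

variable {n d : ℕ}

/-- (10b) In dimension one all vertices are adjacent. -/
theorem edist_one (a : Fin n → Fin 1 → ℝ) (u v : Vert a) : (graph a).edist u v ≤ 1 := by
  by_cases h : u = v
  · rw [h, SimpleGraph.edist_self]
    exact zero_le
  · have hset : {i | ∑ j, a i j * u.1 j = 1 ∧ ∑ j, a i j * v.1 j = 1} = ∅ := by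
      ext i
      simp only [Fin.sum_univ_one, Set.mem_ofPred_eq, Set.mem_empty_iff_false, iff_false]
      rintro ⟨h1, h2⟩
      apply h
      apply Subtype.ext
      funext j
      have h3 : a i 0 ≠ 0 := by
        intro h0
        rw [h0, zero_mul] at h1
        exact zero_ne_one h1
      rw [Subsingleton.elim j 0]
      exact mul_left_cancel₀ h3 (h1.trans h2.symm)
    have hadj : (graph a).Adj u v := by
      rw [SimpleGraph.fromRel_adj]
      refine ⟨h, Or.inl ?_⟩
      rw [hset]
      simp
    rw [SimpleGraph.edist_le_one_iff_adj_or_eq]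
    exact Or.inl hadj

end Pool.Agent.H.MP_0cad2f_co.helper47
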